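import Pool.Agent.H45.JW.PAIR

/-!
# Expansion of one block (row EXP)
-/

set_option autoImplicit false

open Finset

namespace Pool.Agent.H45.JW

open Pool.Agent.H56.JW

variable {V : Type} [Fintype V] [DecidableEq V]

omit [DecidableEq V] in
/-- the degree in a difference -/
theorem dg_sdiff {H M : SimpleGraph V} (h : M ≤ H) (v : V) : dg (H \ M) v + dg M v = dg H v := by
  unfold dg
  have h1 : (H \ M).neighborSet v = H.neighborSet v \ M.neighborSet v := by
    ext b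
    simp [SimpleGraph.sdiff_adj]
  have h2 : M.neighborSet v ⊆ H.neighborSet v := fun b hb => h hb
  rw [h1]
  exact Set.ncard_sdiff_add_ncard_of_subset h2 (Set.toFinite _)

omit [DecidableEq V] in
theorem dg_eq_zero {H : SimpleGraph V} {v : V} (h : ∀ w, ¬ H.Adj v w) : dg H v = 0 := by
  unfold dg
  rw [Set.ncard_eq_zero (Set.toFinite _), Set.eq_empty_iff_forall_notMem]
  exact h

theorem pf_EXP (hL : T_LEAF) : T_EXP := by
  classical
  intro V _ _ K H M S B hH hMH hMB hMd hZ hHB hC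
  obtain ⟨z₀, hz₀B, hz₀S⟩ := hZ
  obtain ⟨N, hN⟩ : ∃ N, N = H \ M := ⟨_, rfl⟩
  have hNadj : ∀ a b, N.Adj a b ↔ H.Adj a b ∧ ¬ M.Adj a b := by
    intro a b
    rw [hN, SimpleGraph.sdiff_adj]
  have hNH : N ≤ H := fun a b h => ((hNadj a b).1 h).1
  -- degrees
  have dsum : ∀ v, dg N v + dg M v = dg H v := by
    intro v
    rw [hN]
    exact dg_sdiff hMH v
  have dZ : ∀ v, v ∈ B → v ∈ S → dg N v = 1 := by
    intro v h1 h2
    have h3 := dsum v
    rw [hMd v h1 h2, hH.2.1 v h2] at h3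
    omega
  have dS : ∀ v, v ∉ B → v ∈ S → dg N v = 2 := by
    intro v h1 h2
    have h3 := dsum v
    rw [dg_eq_zero (fun w hw => h1 (hMB v w hw).1), hH.2.1 v h2] at h3
    omega
  have d0 : ∀ v, v ∉ S → dg N v = 0 := by
    intro v h1
    exact dg_eq_zero (fun w hw => h1 (hH.1 v w (hNH hw)).1)
  have dle : ∀ v, dg N v ≤ 2 := by
    intro v
    by_cases h1 : v ∈ S
    · by_cases h2 : v ∈ B
      · rw [dZ v h2 h1]
        norm_num
      · rw [dS v h2 h1]
    · rw [d0 v h1]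
      norm_num
  have d1 : ∀ v, dg N v = 1 → v ∈ B ∧ v ∈ S := by
    intro v h1
    by_cases h2 : v ∈ S
    · by_cases h3 : v ∈ B
      · exact ⟨h3, h2⟩
      · rw [dS v h3 h2] at h1
        omega
    · rw [d0 v h2] at h1
      omega
  -- the virtual matching
  obtain ⟨M', hM'⟩ : ∃ M' : SimpleGraph V, ∀ a b, M'.Adj a b ↔
      a ≠ b ∧ (a ∈ B ∧ a ∈ S) ∧ (b ∈ B ∧ b ∈ S) ∧ N.Reachable a b :=
    ⟨{ Adj := fun a b => a ≠ b ∧ (a ∈ B ∧ a ∈ S) ∧ (b ∈ B ∧ b ∈ S) ∧ N.Reachable a b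
       symm := ⟨fun a b h => ⟨h.1.symm, h.2.2.1, h.2.1, h.2.2.2.symm⟩⟩
       loopless := ⟨fun a h => h.1 rfl⟩ }, fun a b => Iff.rfl⟩
  have m1 : ∀ v ∈ B, v ∈ S → dg M' v = 1 := by
    intro v hvB hvS
    obtain ⟨z', hz'1, hz'2, hz'3, hz'4⟩ := hL V N dle v (dZ v hvB hvS)
    have h1 : M'.neighborSet v = {z'} := by
      ext b
      rw [SimpleGraph.mem_neighborSet, hM', Set.mem_singleton_iff]
      constructor
      · rintro ⟨h2, -, h3, h4⟩
        exact hz'4 b h2.symm (dZ b h3.1 h3.2) h4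
      · rintro rfl
        exact ⟨hz'1.symm, ⟨hvB, hvS⟩, d1 b hz'2, hz'3⟩
    unfold dg
    rw [h1, Set.ncard_singleton]
  have m0 : ∀ v ∈ B, v ∉ S → dg M' v = 0 := by
    intro v _ hvS
    exact dg_eq_zero (fun w hw => hvS ((hM' v w).1 hw).2.1.2)
  obtain ⟨C, hCB, hCK, hMC⟩ := hC M' (fun u v h => ⟨((hM' u v).1 h).2.1.1, ((hM' u v).1 h).2.2.1.1⟩)
    m1 m0
  obtain ⟨D, hD⟩ : ∃ D, D = C \ M' := ⟨_, rfl⟩
  have hDadj : ∀ a b, D.Adj a b ↔ C.Adj a b ∧ ¬ M'.Adj a b := by
    intro a b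
    rw [hD, SimpleGraph.sdiff_adj]
  have dsum' : ∀ v, dg D v + dg M' v = dg C v := by
    intro v
    rw [hD]
    exact dg_sdiff hMC v
  have hDB : ∀ a b, D.Adj a b → a ∈ B ∧ b ∈ B := fun a b h => hCB.1 a b ((hDadj a b).1 h).1
  have hNB : ∀ a b, N.Adj a b → a ∈ B → b ∉ B := by
    intro a b h ha hb
    have h1 := (hNadj a b).1 h
    exact h1.2 (hHB a b h1.1 ha hb)
  refine ⟨N ⊔ D, ⟨?_, ?_, ?_⟩, by rw [← hN]; exact le_sup_left, ?_⟩
  · intro u v huv
    rcases huv with h | h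
    · have h1 := hH.1 u v (hNH h)
      exact ⟨mem_union_left _ h1.1, mem_union_left _ h1.2⟩
    · have h1 := hDB u v h
      exact ⟨mem_union_right _ h1.1, mem_union_right _ h1.2⟩
  · intro v hv
    have hdis : Disjoint (N.neighborSet v) (D.neighborSet v) := by
      rw [Set.disjoint_left]
      intro b hb hb'
      have h1 := hDB v b hb'
      exact hNB v b hb h1.1 h1.2
    have h1 : dg (N ⊔ D) v = dg N v + dg D v := by
      unfold dg
      have h2 : (N ⊔ D).neighborSet v = N.neighborSet v ∪ D.neighborSet v := by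
        ext b
        simp [SimpleGraph.sup_adj]
      rw [h2, Set.ncard_union_eq hdis (Set.toFinite _) (Set.toFinite _)]
    rw [h1]
    by_cases h2 : v ∈ B
    · have h3 := dsum' v
      rw [hCB.2.1 v h2] at h3
      by_cases h4 : v ∈ S
      · rw [m1 v h2 h4] at h3
        rw [dZ v h2 h4]
        omega
      · rw [m0 v h2 h4] at h3
        rw [d0 v h4]
        omega
    · have h3 : v ∈ S := (mem_union.1 hv).resolve_right h2
      rw [dS v h2 h3, dg_eq_zero (H := D) (fun w hw => h2 (hDB v w hw).1)]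
  · -- connectivity
    have hNle : N ≤ N ⊔ D := le_sup_left
    have c1 : ∀ v ∈ B, (N ⊔ D).Reachable z₀ v := by
      intro v hv
      refine reach_sub (H := C) (fun v => (N ⊔ D).Reachable z₀ v) (SimpleGraph.Reachable.refl _)
        (fun a b ha hab => ?_) (hCB.2.2 z₀ hz₀B v hv)
      by_cases h1 : M'.Adj a b
      · exact ha.trans (((hM' a b).1 h1).2.2.2.mono hNle)
      · apply ha.trans
        apply SimpleGraph.Adj.reachable
        exact Or.inr ((hDadj a b).2 ⟨hab, h1⟩)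
    have c2 : ∀ v ∈ S, (N ⊔ D).Reachable z₀ v := by
      intro v hv
      have h1 := reach_sub (H := H) (u := z₀) (v := v)
        (fun v => ∃ z, (z ∈ B ∧ z ∈ S) ∧ N.Reachable z v)
        ⟨z₀, ⟨hz₀B, hz₀S⟩, SimpleGraph.Reachable.refl _⟩ (fun a b ha hab => by
          by_cases h2 : M.Adj a b
          · exact ⟨b, ⟨(hMB a b h2).2, (hH.1 a b hab).2⟩, SimpleGraph.Reachable.refl _⟩
          · obtain ⟨z, hz, hza⟩ := ha
            exact ⟨z, hz, hza.trans ((hNadj a b).2 ⟨hab, h2⟩).reachable⟩)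
        (hH.2.2 z₀ hz₀S v hv)
      obtain ⟨z, hz, hzv⟩ := h1
      exact (c1 z hz.1).trans (hzv.mono hNle)
    have c3 : ∀ v ∈ S ∪ B, (N ⊔ D).Reachable z₀ v := by
      intro v hv
      rcases mem_union.1 hv with h | h
      · exact c2 v h
      · exact c1 v h
    intro u hu v hv
    exact (c3 u hu).symm.trans (c3 v hv)
  · intro u v huv
    rcases huv with h | h
    · exact Or.inl ((hNadj u v).1 h)
    · right
      have h1 := (hDadj u v).1 h
      refine ⟨(hDB u v h).1, (hDB u v h).2, ?_⟩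
      rcases hCK h1.1 with h2 | h2
      · exact h2
      · exact absurd h2 h1.2

end Pool.Agent.H45.JW
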