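import Pool.Agent.H56.JW.Targets

/-!
# A pairing of the terminals which gives one cycle (row PAIR)
-/

set_option autoImplicit false

open Finset

namespace Pool.Agent.H45.JW

open Pool.Agent.H56.JW

section
variable {V : Type}

/-- reachability and closed sets -/
theorem reach_sub {H : SimpleGraph V} {u v : V} (P : V → Prop) (hu : P u)
    (hs : ∀ a b, P a → H.Adj a b → P b) (h : H.Reachable u v) : P v := by
  obtain ⟨w⟩ := h
  revert hu
  induction w with
  | nil => exact fun h => h
  | cons hadj _ ih => exact fun h => ih (hs _ _ h hadj)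

/-- a pairing of the terminals -/
structure Prg (T : V → Prop) (lab p : V → V) : Prop where
  mem : ∀ v, T v → T (p v)
  ne : ∀ v, T v → p v ≠ v
  lb : ∀ v, T v → lab (p v) = lab v
  inv : ∀ v, T v → p (p v) = v

/-- the graph of a pairing -/
def PG (T : V → Prop) (p : V → V) : SimpleGraph V where
  Adj u v := T u ∧ T v ∧ p u = v ∧ p v = u ∧ u ≠ v
  symm := ⟨fun _ _ h => ⟨h.2.1, h.1, h.2.2.2.1, h.2.2.1, h.2.2.2.2.symm⟩⟩
  loopless := ⟨fun _ h => h.2.2.2.2 rfl⟩

theorem Prg.adj {T : V → Prop} {lab p : V → V} (h : Prg T lab p) {v : V} (hv : T v) :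
    (PG T p).Adj v (p v) :=
  ⟨hv, h.mem v hv, rfl, h.inv v hv, (h.ne v hv).symm⟩

end

variable {V : Type} [Fintype V] [DecidableEq V]

theorem exists_pairing (lab : V → V) (S : Finset V)
    (hS : ∀ c, Even (S.filter (fun v => lab v = c)).card) :
    ∃ p : V → V, ∀ v ∈ S, p v ∈ S ∧ p v ≠ v ∧ lab (p v) = lab v ∧ p (p v) = v := by
  induction S using Finset.strongInduction with
  | H S ih =>
    rcases S.eq_empty_or_nonempty with rfl | ⟨v, hv⟩
    · exact ⟨id, fun v hv => absurd hv (Finset.notMem_empty v)⟩
    · have h1 : v ∈ S.filter (fun x => lab x = lab v) := mem_filter.2 ⟨hv, rfl⟩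
      have h2 : 1 < (S.filter (fun x => lab x = lab v)).card := by
        have h3 := hS (lab v)
        have h4 : 0 < (S.filter (fun x => lab x = lab v)).card := card_pos.2 ⟨v, h1⟩
        rcases h3 with ⟨k, hk⟩
        omega
      obtain ⟨v', hv', hne⟩ := exists_mem_ne h2 v
      rw [mem_filter] at hv'
      have hsub : (S.erase v).erase v' ⊂ S := by
        refine ⟨(erase_subset _ _).trans (erase_subset _ _), fun h => ?_⟩
        have h5 := h hv
        simp at h5
      have hmem : ∀ x, x ∈ (S.erase v).erase v' ↔ x ∈ S ∧ x ≠ v ∧ x ≠ v' := by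
        intro x
        simp only [mem_erase]
        tauto
      obtain ⟨p, hp⟩ := ih _ hsub (by
        intro c
        by_cases hc : c = lab v
        · subst hc
          have h6 : ((S.erase v).erase v').filter (fun x => lab x = lab v) =
              ((S.filter (fun x => lab x = lab v)).erase v).erase v' := by
            ext x
            simp only [mem_filter, mem_erase]
            tauto
          rw [h6, card_erase_of_mem (mem_erase.2 ⟨hne, mem_filter.2 hv'⟩), card_erase_of_mem h1]
          rcases hS (lab v) with ⟨k, hk⟩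
          refine ⟨k - 1, ?_⟩
          omega
        · have h6 : ((S.erase v).erase v').filter (fun x => lab x = c) =
              S.filter (fun x => lab x = c) := by
            ext x
            simp only [mem_filter, mem_erase]
            constructor
            · tauto
            · rintro ⟨h7, h8⟩
              refine ⟨⟨?_, ?_, h7⟩, h8⟩
              · rintro rfl
                exact hc (h8.symm.trans hv'.2)
              · rintro rfl
                exact hc h8.symm
          rw [h6]
          exact hS c)
      obtain ⟨f, hf⟩ : ∃ f : V → V, f = fun x => if x = v then v' else if x = v' then v else p x :=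
        ⟨_, rfl⟩
      have f1 : f v = v' := by
        rw [hf]
        simp
      have f2 : f v' = v := by
        rw [hf]
        simp [hne]
      have f3 : ∀ x, x ≠ v → x ≠ v' → f x = p x := by
        intro x h7 h8
        rw [hf]
        simp [h7, h8]
      refine ⟨f, ?_⟩
      intro x hx
      by_cases hxv : x = v
      · rw [hxv, f1, f2]
        exact ⟨hv'.1, hne, hv'.2, rfl⟩
      · by_cases hxv' : x = v'
        · rw [hxv', f2, f1]
          exact ⟨hv, hne.symm, hv'.2.symm, rfl⟩
        · have h7 := hp x ((hmem x).2 ⟨hx, hxv, hxv'⟩)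
          have h8 := (hmem _).1 h7.1
          rw [f3 x hxv hxv', f3 _ h8.2.1 h8.2.2]
          exact ⟨h8.1, h7.2⟩

omit [Fintype V] in
/-- exchange -/
theorem Prg.swap {T : V → Prop} {lab p : V → V} (h : Prg T lab p) {z z' : V} (hz : T z)
    (hz' : T z') (hl : lab z' = lab z) (hzz : z' ≠ z) (hzp : z' ≠ p z) :
    ∃ p' : V → V, Prg T lab p' ∧ p' z = z' ∧ p' (p z) = p z' ∧
      ∀ x, x ≠ z → x ≠ z' → x ≠ p z → x ≠ p z' → p' x = p x := by
  have hw := h.mem z hz
  have hw' := h.mem z' hz'
  have e1 := h.inv z hz
  have e2 := h.inv z' hz'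
  have n1 := h.ne z hz
  have n2 := h.ne z' hz'
  have l1 := h.lb z hz
  have l2 := h.lb z' hz'
  have n3 : p z' ≠ z := by
    intro h1
    apply hzp
    rw [← h1, e2]
  have n4 : p z' ≠ p z := by
    intro h1
    apply hzz
    rw [← e2, h1, e1]
  obtain ⟨p', hp'⟩ : ∃ p' : V → V, p' = fun x => if x = z then z' else if x = z' then z
      else if x = p z then p z' else if x = p z' then p z else p x := ⟨_, rfl⟩
  have v1 : p' z = z' := by
    rw [hp']
    simp
  have v2 : p' z' = z := by
    rw [hp']
    simp [hzz]
  have v3 : p' (p z) = p z' := by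
    rw [hp']
    simp [n1, hzp.symm]
  have v4 : p' (p z') = p z := by
    rw [hp']
    simp [n2, n3, n4]
  have v5 : ∀ x, x ≠ z → x ≠ z' → x ≠ p z → x ≠ p z' → p' x = p x := by
    intro x h1 h2 h3 h4
    rw [hp']
    simp [h1, h2, h3, h4]
  have key : ∀ x, T x → x ≠ z → x ≠ z' → x ≠ p z → x ≠ p z' →
      p x ≠ z ∧ p x ≠ z' ∧ p x ≠ p z ∧ p x ≠ p z' := by
    intro x hx h1 h2 h3 h4
    have e3 := h.inv x hx
    refine ⟨?_, ?_, ?_, ?_⟩
    · intro h5
      exact h3 (by rw [← h5, e3])
    · intro h5
      exact h4 (by rw [← h5, e3])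
    · intro h5
      exact h1 (by rw [← e3, h5, e1])
    · intro h5
      exact h2 (by rw [← e3, h5, e2])
  refine ⟨p', ⟨?_, ?_, ?_, ?_⟩, v1, v3, v5⟩
  · intro v hv
    by_cases h1 : v = z
    · rw [h1, v1]
      exact hz'
    by_cases h2 : v = z'
    · rw [h2, v2]
      exact hz
    by_cases h3 : v = p z
    · rw [h3, v3]
      exact hw'
    by_cases h4 : v = p z'
    · rw [h4, v4]
      exact hw
    rw [v5 v h1 h2 h3 h4]
    exact h.mem v hv
  · intro v hv
    by_cases h1 : v = z
    · rw [h1, v1]
      exact hzz
    by_cases h2 : v = z'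
    · rw [h2, v2]
      exact hzz.symm
    by_cases h3 : v = p z
    · rw [h3, v3]
      exact n4
    by_cases h4 : v = p z'
    · rw [h4, v4]
      exact n4.symm
    rw [v5 v h1 h2 h3 h4]
    exact h.ne v hv
  · intro v hv
    by_cases h1 : v = z
    · rw [h1, v1]
      exact hl
    by_cases h2 : v = z'
    · rw [h2, v2]
      exact hl.symm
    by_cases h3 : v = p z
    · rw [h3, v3, l1, l2]
      exact hl
    by_cases h4 : v = p z'
    · rw [h4, v4, l1, l2]
      exact hl.symm
    rw [v5 v h1 h2 h3 h4]
    exact h.lb v hv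
  · intro v hv
    by_cases h1 : v = z
    · rw [h1, v1, v2]
    by_cases h2 : v = z'
    · rw [h2, v2, v1]
    by_cases h3 : v = p z
    · rw [h3, v3, v4]
    by_cases h4 : v = p z'
    · rw [h4, v4, v3]
    rw [v5 v h1 h2 h3 h4]
    obtain ⟨k1, k2, k3, k4⟩ := key v hv h1 h2 h3 h4
    rw [v5 _ k1 k2 k3 k4]
    exact h.inv v hv

/-- every vertex with positive degree in an acyclic graph whose packed vertices have degree at most
one reaches a vertex of degree one -/
theorem reach_terminal {F : SimpleGraph V} {X : Finset V} (hac : F.IsAcyclic)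
    (hX : ∀ x ∈ X, dg F x = 2) (hP : ∀ y ∉ X, dg F y ≤ 1) {x : V} (hx : x ∈ X) :
    ∃ t, t ∉ X ∧ dg F t = 1 ∧ F.Reachable x t := by
  by_contra hcon
  push Not at hcon
  -- the component of `x`
  let F' : SimpleGraph V :=
    { Adj := fun a b => F.Adj a b ∧ F.Reachable x a
      symm := ⟨fun a b h => ⟨h.1.symm, h.2.trans h.1.reachable⟩⟩
      loopless := ⟨fun a h => F.loopless.irrefl a h.1⟩ }
  have hF' : F' ≤ F := fun a b h => h.1
  have hcyc : F'.IsCycles := by
    intro v hv
    obtain ⟨w, hw⟩ := hv
    have hw' : F.Adj v w ∧ F.Reachable x v := hw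
    have hnb : F'.neighborSet v = F.neighborSet v := by
      ext b
      exact ⟨fun h => h.1, fun h => ⟨h, hw'.2⟩⟩
    rw [hnb]
    by_cases hvX : v ∈ X
    · exact hX v hvX
    · exfalso
      have h1 : 0 < dg F v := by
        unfold dg
        rw [Set.ncard_pos (Set.toFinite _)]
        exact ⟨w, hw'.1⟩
      have h2 := hP v hvX
      exact hcon v hvX (by omega) hw'.2
  have h2 : 0 < dg F x := by
    rw [hX x hx]
    norm_num
  unfold dg at h2
  rw [Set.ncard_pos (Set.toFinite _)] at h2
  obtain ⟨y, hy⟩ := h2
  have hadj : F'.Adj x y := ⟨hy, SimpleGraph.Reachable.refl x⟩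
  have h3 := hcyc.reachable_deleteEdges hadj
  obtain ⟨u, c, hc, -⟩ := SimpleGraph.adj_and_reachable_delete_edges_iff_exists_cycle.1 ⟨hadj, h3⟩
  exact (hac.anti hF') c hc

/-- the degrees of the union -/
theorem union_neighbors {G : SimpleGraph V} {X : Finset V} {lab : V → V} {q : ℕ}
    {F : SimpleGraph V} (hF : FStr G X lab q F) {p : V → V}
    (hp : Prg (fun v => v ∉ X ∧ dg F v = 1) lab p) (v : V) :
    (v ∈ X ∨ dg F v = 1 → dg (F ⊔ PG (fun v => v ∉ X ∧ dg F v = 1) p) v = 2) ∧
    (¬ (v ∈ X ∨ dg F v = 1) → (F ⊔ PG (fun v => v ∉ X ∧ dg F v = 1) p).neighborSet v = ∅) := by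
  constructor
  · intro hv
    by_cases hvX : v ∈ X
    · have h1 : (F ⊔ PG (fun v => v ∉ X ∧ dg F v = 1) p).neighborSet v = F.neighborSet v := by
        ext b
        simp only [SimpleGraph.mem_neighborSet, SimpleGraph.sup_adj]
        constructor
        · rintro (h | h)
          · exact h
          · exact absurd hvX h.1.1
        · exact Or.inl
      change ((F ⊔ PG (fun v => v ∉ X ∧ dg F v = 1) p).neighborSet v).ncard = 2
      rw [h1]
      exact hF.dX v hvX
    · have hd : dg F v = 1 := hv.resolve_left hvX
      have hd' := hd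
      unfold dg at hd'
      obtain ⟨a, ha⟩ := Set.ncard_eq_one.1 hd'
      have haF : F.Adj v a := by
        have : a ∈ F.neighborSet v := by
          rw [ha]
          rfl
        exact this
      have hT : v ∉ X ∧ dg F v = 1 := ⟨hvX, hd⟩
      have hne : a ≠ p v := by
        intro h
        have h2 := hp.mem v hT
        exact hF.dif v (p v) (h ▸ haF) hvX h2.1 (hp.lb v hT).symm
      have h1 : (F ⊔ PG (fun v => v ∉ X ∧ dg F v = 1) p).neighborSet v = {a, p v} := by
        ext b
        simp only [SimpleGraph.mem_neighborSet, SimpleGraph.sup_adj, Set.mem_insert_iff,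
          Set.mem_singleton_iff]
        constructor
        · rintro (h | h)
          · left
            have : b ∈ F.neighborSet v := h
            rw [ha] at this
            exact this
          · right
            exact h.2.2.1.symm
        · rintro (rfl | rfl)
          · exact Or.inl haF
          · exact Or.inr (hp.adj hT)
      change ((F ⊔ PG (fun v => v ∉ X ∧ dg F v = 1) p).neighborSet v).ncard = 2
      rw [h1, Set.ncard_pair hne]
  · intro hv
    push Not at hv
    ext b
    simp only [SimpleGraph.mem_neighborSet, SimpleGraph.sup_adj, Set.mem_empty_iff_false, iff_false]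
    rintro (h | h)
    · have h1 : 0 < dg F v := by
        unfold dg
        rw [Set.ncard_pos (Set.toFinite _)]
        exact ⟨b, h⟩
      have h2 := hF.dP v hv.1
      exact hv.2 (by omega)
    · exact hv.2 h.1.2

theorem pf_PAIR : T_PAIR := by
  classical
  intro V _ _ G X lab q F hF hterm
  obtain ⟨z₀, hz₀X, hz₀⟩ := hterm
  obtain ⟨T, hT⟩ : ∃ T : V → Prop, T = fun v => v ∉ X ∧ dg F v = 1 := ⟨_, rfl⟩
  have hTz₀ : T z₀ := by
    rw [hT]
    exact ⟨hz₀X, hz₀⟩
  -- a pairing exists
  obtain ⟨p₀, hp₀⟩ := exists_pairing lab (univ.filter fun v => v ∉ X ∧ dg F v = 1) (by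
    intro c
    by_cases hc : ∃ u ∉ X, lab u = c
    · obtain ⟨u, hu, rfl⟩ := hc
      have h1 := hF.par u hu
      have h2 : (univ.filter fun v => v ∉ X ∧ dg F v = 1).filter (fun v => lab v = lab u) =
          trm X lab F u := by
        ext x
        unfold trm cls
        simp only [mem_filter, mem_univ, true_and]
        tauto
      rw [h2]
      exact h1
    · have h2 : (univ.filter fun v => v ∉ X ∧ dg F v = 1).filter (fun v => lab v = c) = ∅ := by
        rw [filter_eq_empty_iff]
        intro x hx hxc
        exact hc ⟨x, (mem_filter.1 hx).2.1, hxc⟩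
      rw [h2]
      exact ⟨0, rfl⟩)
  have hP₀ : Prg T lab p₀ := by
    have h1 : ∀ v, T v ↔ v ∈ univ.filter fun v => v ∉ X ∧ dg F v = 1 := by
      intro v
      rw [hT]
      simp
    refine ⟨fun v hv => ?_, fun v hv => ?_, fun v hv => ?_, fun v hv => ?_⟩
    · exact (h1 _).2 (hp₀ v ((h1 v).1 hv)).1
    · exact (hp₀ v ((h1 v).1 hv)).2.1
    · exact (hp₀ v ((h1 v).1 hv)).2.2.1
    · exact (hp₀ v ((h1 v).1 hv)).2.2.2
  -- the best pairing
  obtain ⟨p, hpm, hmax⟩ := Finset.exists_max_image
    (univ.filter fun p : V → V => Prg T lab p)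
    (fun p => (univ.filter fun v => (F ⊔ PG T p).Reachable z₀ v).card)
    ⟨p₀, mem_filter.2 ⟨mem_univ _, hP₀⟩⟩
  have hp : Prg T lab p := (mem_filter.1 hpm).2
  obtain ⟨H, hH⟩ : ∃ H, H = F ⊔ PG T p := ⟨_, rfl⟩
  have hdeg : ∀ v, (v ∈ X ∨ dg F v = 1 → dg H v = 2) ∧
      (¬ (v ∈ X ∨ dg F v = 1) → H.neighborSet v = ∅) := by
    intro v
    rw [hH, hT]
    rw [hT] at hp
    exact union_neighbors hF hp v
  have hcyc : H.IsCycles := by
    intro v hv
    by_cases h : v ∈ X ∨ dg F v = 1
    · exact (hdeg v).1 h
    · rw [(hdeg v).2 h] at hv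
      exact absurd hv Set.not_nonempty_empty
  -- no exchange is possible
  have hex : ∀ z z', T z → T z' → lab z' = lab z → H.Reachable z₀ z → H.Reachable z₀ z' := by
    intro z z' hz hz' hl hA
    by_contra hA'
    have hadj : H.Adj z (p z) := by
      rw [hH]
      exact Or.inr (hp.adj hz)
    have hadj' : H.Adj z' (p z') := by
      rw [hH]
      exact Or.inr (hp.adj hz')
    have hAw : H.Reachable z₀ (p z) := hA.trans hadj.reachable
    have hAw' : ¬ H.Reachable z₀ (p z') := fun h => hA' (h.trans hadj'.symm.reachable)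
    have hzz : z' ≠ z := by
      rintro rfl
      exact hA' hA
    have hzp : z' ≠ p z := by
      intro h
      rw [← h] at hAw
      exact hA' hAw
    obtain ⟨p', hp', v1, v3, v5⟩ := hp.swap hz hz' hl hzz hzp
    -- reachability without the edge `z - p z`
    have h1 := hcyc.reachable_deleteEdges hadj
    have h2 : ∀ v, H.Reachable z₀ v → (H.deleteEdges {s(z, p z)}).Reachable z₀ v := by
      intro v hv
      refine reach_sub (fun v => (H.deleteEdges {s(z, p z)}).Reachable z₀ v)
        (SimpleGraph.Reachable.refl _) (fun a b ha hab => ?_) hv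
      by_cases he : s(a, b) = s(z, p z)
      · rcases Sym2.eq_iff.1 he with ⟨e1, e2⟩ | ⟨e1, e2⟩
        · rw [e2]
          rw [e1] at ha
          exact ha.trans h1
        · rw [e2]
          rw [e1] at ha
          exact ha.trans h1.symm
      · apply ha.trans
        apply SimpleGraph.Adj.reachable
        rw [SimpleGraph.deleteEdges_adj]
        exact ⟨hab, he⟩
    have h3 : ∀ v, (H.deleteEdges {s(z, p z)}).Reachable z₀ v →
        H.Reachable z₀ v ∧ (F ⊔ PG T p').Reachable z₀ v := by
      intro v hv
      refine reach_sub (fun v => H.Reachable z₀ v ∧ (F ⊔ PG T p').Reachable z₀ v)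
        ⟨SimpleGraph.Reachable.refl _, SimpleGraph.Reachable.refl _⟩ (fun a b ha hab => ?_) hv
      rw [SimpleGraph.deleteEdges_adj] at hab
      obtain ⟨hab, hne⟩ := hab
      have hne' : ¬ s(a, b) = s(z, p z) := hne
      refine ⟨ha.1.trans hab.reachable, ha.2.trans ?_⟩
      apply SimpleGraph.Adj.reachable
      rw [hH] at hab
      rcases hab with hab | hab
      · exact Or.inl hab
      · right
        obtain ⟨ta, tb, e1, e2, e3⟩ := hab
        have a1 : a ≠ z := by
          rintro rfl
          rw [← e1] at hne'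
          exact hne' rfl
        have a2 : a ≠ p z := by
          intro h
          apply hne'
          have : b = z := by rw [← e1, h, hp.inv z hz]
          rw [h, this]
          exact Sym2.eq_swap
        have a3 : a ≠ z' := by
          rintro rfl
          exact hA' ha.1
        have a4 : a ≠ p z' := by
          rintro rfl
          exact hAw' ha.1
        have hb : H.Reachable z₀ b := by
          apply ha.1.trans
          apply SimpleGraph.Adj.reachable
          rw [hH]
          exact Or.inr ⟨ta, tb, e1, e2, e3⟩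
        have b1 : b ≠ z := by
          rintro rfl
          exact a2 e2.symm
        have b2 : b ≠ p z := by
          intro h
          apply a1
          rw [← e2, h, hp.inv z hz]
        have b3 : b ≠ z' := by
          rintro rfl
          exact hA' hb
        have b4 : b ≠ p z' := by
          rintro rfl
          exact hAw' hb
        exact ⟨ta, tb, by rw [v5 a a1 a3 a2 a4, e1], by rw [v5 b b1 b3 b2 b4, e2], e3⟩
    have h4 : (F ⊔ PG T p').Reachable z₀ z' := by
      apply (h3 z (h2 z hA)).2.trans
      apply SimpleGraph.Adj.reachable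
      right
      have h5 := hp'.adj hz
      rw [v1] at h5
      exact h5
    have h5 := hmax p' (mem_filter.2 ⟨mem_univ _, hp'⟩)
    have h6 : (univ.filter fun v => (F ⊔ PG T p).Reachable z₀ v) ⊂
        (univ.filter fun v => (F ⊔ PG T p').Reachable z₀ v) := by
      rw [Finset.ssubset_iff_of_subset]
      · refine ⟨z', mem_filter.2 ⟨mem_univ _, h4⟩, fun h => ?_⟩
        rw [mem_filter, ← hH] at h
        exact hA' h.2
      · intro v hv
        rw [mem_filter, ← hH] at hv
        rw [mem_filter]
        exact ⟨mem_univ _, (h3 v (h2 v hv.2)).2⟩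
    have h7 := card_lt_card h6
    exact absurd h5 (not_le.2 h7)
  -- all terminals are reachable
  have hterm : ∀ t, T t → H.Reachable z₀ t := by
    intro t ht
    have htX : t ∉ X := by
      rw [hT] at ht
      exact ht.1
    have hFH : F ≤ H := by
      rw [hH]
      exact le_sup_left
    have key := reach_sub (H := F ⊔ KL X lab) (u := z₀) (v := t)
      (fun v => (v ∈ X ∧ H.Reachable z₀ v) ∨
        (v ∉ X ∧ ∃ s, T s ∧ lab s = lab v ∧ H.Reachable z₀ s))
      (Or.inr ⟨hz₀X, z₀, hTz₀, rfl, SimpleGraph.Reachable.refl _⟩) (by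
        intro a b ha hab
        rcases hab with hab | hab
        · -- an edge of `F`
          have hab' : H.Adj a b := hFH hab
          have hpos : ∀ x y, F.Adj x y → x ∉ X → T x := by
            intro x y hxy hxX
            have h1 : 0 < dg F x := by
              unfold dg
              rw [Set.ncard_pos (Set.toFinite _)]
              exact ⟨y, hxy⟩
            have h2 := hF.dP x hxX
            rw [hT]
            exact ⟨hxX, by omega⟩
          have ha' : H.Reachable z₀ a := by
            rcases ha with ⟨-, h⟩ | ⟨h1, s, hs, hl, h⟩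
            · exact h
            · exact hex s a hs (hpos a b hab h1) hl.symm h
          have hb' : H.Reachable z₀ b := ha'.trans hab'.reachable
          by_cases hbX : b ∈ X
          · exact Or.inl ⟨hbX, hb'⟩
          · exact Or.inr ⟨hbX, b, hpos b a hab.symm hbX, rfl, hb'⟩
        · obtain ⟨-, haX, hbX, hl⟩ := hab
          rcases ha with ⟨h, -⟩ | ⟨-, s, hs, hl', h⟩
          · exact absurd h haX
          · exact Or.inr ⟨hbX, s, hs, hl'.trans hl, h⟩) (hF.con z₀ hz₀X t htX)
    rcases key with ⟨h, -⟩ | ⟨-, s, hs, hl, h⟩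
    · exact absurd h htX
    · exact hex s t hs ht hl.symm h
  have hall : ∀ v, v ∈ X ∨ dg F v = 1 → H.Reachable z₀ v := by
    intro v hv
    by_cases hvX : v ∈ X
    · obtain ⟨t, ht1, ht2, ht3⟩ := reach_terminal hF.acy hF.dX hF.dP hvX
      have h1 := hterm t (by
        rw [hT]
        exact ⟨ht1, ht2⟩)
      have h2 : H.Reachable v t := ht3.mono (by
        rw [hH]
        exact le_sup_left)
      exact h1.trans h2.symm
    · exact hterm v (by
        rw [hT]
        exact ⟨hvX, hv.resolve_left hvX⟩)
  refine ⟨PG T p, ?_, ?_, ?_⟩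
  · intro u v huv
    have h1 := huv.1
    have h2 := huv.2.1
    have h3 := hp.lb u h1
    rw [huv.2.2.1] at h3
    rw [hT] at h1 h2
    exact ⟨h1.1, h2.1, h3.symm, h1.2, h2.2⟩
  · intro v hvX hv
    have hTv : T v := by
      rw [hT]
      exact ⟨hvX, hv⟩
    have h1 : (PG T p).neighborSet v = {p v} := by
      ext b
      simp only [SimpleGraph.mem_neighborSet, Set.mem_singleton_iff]
      constructor
      · intro h
        exact h.2.2.1.symm
      · rintro rfl
        exact hp.adj hTv
    unfold dg
    rw [h1, Set.ncard_singleton]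
  · rw [← hH]
    refine ⟨?_, ?_, ?_⟩
    · intro u v huv
      have h1 : ∀ a b, H.Adj a b → a ∈ X ∨ dg F a = 1 := by
        intro a b hab
        by_contra hcon
        have h2 := (hdeg a).2 hcon
        have h3 : b ∈ H.neighborSet a := hab
        rw [h2] at h3
        exact h3
      exact ⟨mem_filter.2 ⟨mem_univ _, h1 u v huv⟩, mem_filter.2 ⟨mem_univ _, h1 v u huv.symm⟩⟩
    · intro v hv
      exact (hdeg v).1 (mem_filter.1 hv).2
    · intro u hu v hv
      exact (hall u (mem_filter.1 hu).2).symm.trans (hall v (mem_filter.1 hv).2)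

end Pool.Agent.H45.JW
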